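import Mathlib

open Set Metric Filter Topology InnerProductSpace

namespace Pool.Agent.H.MP_677f70_an

variable {n : ℕ}

lemma iter {E F : Type*} [NormedAddCommGroup E] [NormedSpace ℝ E] [NormedAddCommGroup F]
    [NormedSpace ℝ F] {u : E → F} {z : E} (hc : ContDiffAt ℝ 2 u z) (v : E) :
    iteratedFDeriv ℝ 2 u z ![v, v] = fderiv ℝ (fun w => fderiv ℝ u w v) z v := by
  have hd : DifferentiableAt ℝ (fderiv ℝ u) z :=
    (hc.fderiv_right (m := 1) (by norm_num)).differentiableAt (by norm_num)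
  rw [iteratedFDeriv_two_apply, fderiv_clm_apply hd (differentiableAt_const v)]
  simp

lemma locmax {u : EuclideanSpace ℝ (Fin n) → ℝ} {z : EuclideanSpace ℝ (Fin n)}
    (hc : ContDiffAt ℝ 2 u z) (hm : IsLocalMax u z) : Laplacian.laplacian u z ≤ 0 := by
  have k : ∀ v, iteratedFDeriv ℝ 2 u z ![v, v] ≤ 0 := fun v => by
    rw [iter hc]
    by_contra h
    push Not at h
    have l1 : ∀ τ : ℝ, HasDerivAt (fun τ : ℝ => z + τ • v) v τ := fun τ => by
      simpa using ((hasDerivAt_id τ).smul_const v).const_add z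
    have lc : Continuous fun τ : ℝ => z + τ • v := by fun_prop
    have lt : Tendsto (fun τ : ℝ => z + τ • v) (𝓝 0) (𝓝 z) := by simpa using lc.tendsto 0
    have e1 : deriv (fun τ : ℝ => u (z + τ • v)) =ᶠ[𝓝 0] fun τ => fderiv ℝ u (z + τ • v) v := by
      filter_upwards [lt.eventually (hc.eventually (by simp))] with τ hτ
      exact ((hτ.differentiableAt (by norm_num)).hasFDerivAt.comp_hasDerivAt τ (l1 τ)).deriv
    have hd : DifferentiableAt ℝ (fun w => fderiv ℝ u w v) (z + (0:ℝ) • v) := by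
      simpa using ((hc.fderiv_right (m := 1) (by norm_num)).differentiableAt
        (by norm_num)).clm_apply (differentiableAt_const v)
    have e2 : deriv (deriv fun τ : ℝ => u (z + τ • v)) 0 =
        fderiv ℝ (fun w => fderiv ℝ u w v) z v := by
      rw [e1.deriv_eq]
      simpa [Function.comp_def] using (hd.hasFDerivAt.comp_hasDerivAt 0 (l1 0)).deriv
    have m1 : IsLocalMax (fun τ : ℝ => u (z + τ • v)) 0 := by
      have := lt.eventually hm
      simpa [IsLocalMax, IsMaxFilter] using this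
    have c1 : ContinuousAt (fun τ : ℝ => u (z + τ • v)) 0 :=
      ContinuousAt.comp (f := fun τ : ℝ => z + τ • v) (by simpa using hc.continuousAt)
        lc.continuousAt
    have m2 := isLocalMin_of_deriv_deriv_pos (e2 ▸ h) m1.deriv_eq_zero c1
    have e3 : (fun τ : ℝ => u (z + τ • v)) =ᶠ[𝓝 0] fun _ => u (z + (0:ℝ) • v) := by
      filter_upwards [m1, m2] with τ h1 h2 using le_antisymm h1 h2
    rw [e3.deriv.deriv_eq] at e2
    simp at e2
    linarith
  rw [laplacian_eq_iteratedFDeriv_orthonormalBasis _ (EuclideanSpace.basisFun (Fin n) ℝ)]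
  exact Finset.sum_nonpos fun i _ => k _

lemma d1 {g : ℂ → ℂ} (ζ : EuclideanSpace ℝ (Fin n) →L[ℝ] ℂ) {x : EuclideanSpace ℝ (Fin n)}
    (hg : AnalyticAt ℂ g (ζ x)) (v : EuclideanSpace ℝ (Fin n)) :
    fderiv ℝ (fun y => g (ζ y)) x v = deriv g (ζ x) * ζ v := by
  have h := ((hg.differentiableAt.hasDerivAt.hasFDerivAt.restrictScalars ℝ).comp x
    ζ.hasFDerivAt).fderiv
  rw [show (fun y => g (ζ y)) = g ∘ ζ from rfl, h]
  simp [mul_comm]

lemma cd {g : ℂ → ℂ} (ζ : EuclideanSpace ℝ (Fin n) →L[ℝ] ℂ) {x : EuclideanSpace ℝ (Fin n)}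
    (hg : AnalyticAt ℂ g (ζ x)) : ContDiffAt ℝ 2 (fun y => g (ζ y)) x :=
  ((hg.contDiffAt (n := 2)).restrict_scalars ℝ).comp x ζ.contDiff.contDiffAt

lemma lapc {g : ℂ → ℂ} (ζ : EuclideanSpace ℝ (Fin n) →L[ℝ] ℂ) {x : EuclideanSpace ℝ (Fin n)}
    (hg : AnalyticAt ℂ g (ζ x)) : Laplacian.laplacian (fun y => g (ζ y)) x =
      deriv (deriv g) (ζ x) * ∑ i, ζ (EuclideanSpace.single i 1) ^ 2 := by
  rw [laplacian_eq_iteratedFDeriv_orthonormalBasis _ (EuclideanSpace.basisFun (Fin n) ℝ),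
    Finset.mul_sum]
  refine Finset.sum_congr rfl fun i _ => ?_
  rw [iter (cd ζ hg), EuclideanSpace.basisFun_apply]
  set v : EuclideanSpace ℝ (Fin n) := EuclideanSpace.single i 1
  have e1 : (fun w => fderiv ℝ (fun y => g (ζ y)) w v) =ᶠ[𝓝 x]
      fun w => (fun s => deriv g s * ζ v) (ζ w) := by
    filter_upwards [ζ.continuous.continuousAt.eventually hg.eventually_analyticAt] with w hw
    exact d1 ζ hw v
  rw [e1.fderiv_eq, d1 (g := fun s => deriv g s * ζ v) ζ (hg.deriv.mul analyticAt_const),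
    deriv_mul_const_field]
  ring

lemma harm {g : ℂ → ℂ} (ζ : EuclideanSpace ℝ (Fin n) →L[ℝ] ℂ)
    (hζ : ∑ i, ζ (EuclideanSpace.single i 1) ^ 2 = 0) {x : EuclideanSpace ℝ (Fin n)}
    (hg : AnalyticAt ℂ g (ζ x)) : HarmonicAt (fun y => (g (ζ y)).re) x := by
  have : HarmonicAt (fun y => g (ζ y)) x := by
    refine ⟨cd ζ hg, ?_⟩
    filter_upwards [ζ.continuous.continuousAt.eventually hg.eventually_analyticAt] with w hw
    rw [lapc ζ hw, hζ, mul_zero, Pi.zero_apply]
  exact this.comp_CLM Complex.reCLM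

lemma lapsq (i : Fin n) (x : EuclideanSpace ℝ (Fin n)) :
    Laplacian.laplacian (fun y : EuclideanSpace ℝ (Fin n) => y i ^ 2) x = 2 := by
  let ζ : EuclideanSpace ℝ (Fin n) →L[ℝ] ℂ := Complex.ofRealCLM ∘L EuclideanSpace.proj i
  have ha : AnalyticAt ℂ (fun s : ℂ => s ^ 2) (ζ x) := by fun_prop
  have h1 := lapc ζ ha
  have h2 := (cd ζ ha).laplacian_CLM_comp_left (l := Complex.reCLM)
  have e : (fun y : EuclideanSpace ℝ (Fin n) => y i ^ 2) =
      Complex.reCLM ∘ fun y => (fun s : ℂ => s ^ 2) (ζ y) := by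
    ext y
    simp [ζ, ← Complex.ofReal_pow]
  rw [e, h2, Function.comp_apply, h1, Finset.sum_eq_single i]
  · have : deriv (fun s : ℂ => s ^ 2) = fun s => 2 * s := by ext s; simp
    rw [this]
    simp [ζ]
  · intro j _ hj
    simp [ζ, hj.symm]
  · simp

end Pool.Agent.H.MP_677f70_an
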