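import Mathlib

open Set Metric Filter Topology

namespace Pool.Agent.H.MP_677f70_an

lemma argf {w : ℂ} (hw : 0 < w.re) : |w.arg| ≤ 2 ∧ ‖w‖ ≤ w.re + w.im * w.arg ∧
    0 ≤ w.im * w.arg := by
  have h1 : |w.arg| < Real.pi / 2 := Complex.abs_arg_lt_pi_div_two_iff.2 (Or.inl hw)
  have h2 := Real.pi_lt_four
  have h3 : 0 < ‖w‖ := hw.trans_le (Complex.re_le_norm w)
  have h4 : w.im = ‖w‖ * Real.sin w.arg := by rw [Complex.sin_arg]; field_simp
  have h5 : Real.sin w.arg ^ 2 ≤ Real.sin w.arg * w.arg := by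
    rcases le_total 0 w.arg with h | h
    · have a := Real.sin_le h
      have b := Real.sin_nonneg_of_nonneg_of_le_pi h (Complex.arg_le_pi w)
      nlinarith
    · have a := Real.sin_le (neg_nonneg.2 h)
      have b := Real.sin_nonpos_of_nonpos_of_neg_pi_le h (Complex.neg_pi_lt_arg w).le
      rw [Real.sin_neg] at a
      nlinarith
  have h6 : w.im ^ 2 ≤ w.im * w.arg * ‖w‖ := by
    have := mul_le_mul_of_nonneg_left h5 (sq_nonneg ‖w‖)
    calc w.im ^ 2 = ‖w‖ ^ 2 * Real.sin w.arg ^ 2 := by rw [h4]; ring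
      _ ≤ _ := this
      _ = ‖w‖ * Real.sin w.arg * w.arg * ‖w‖ := by ring
      _ = _ := by rw [← h4]
  have h7 : ‖w‖ ^ 2 = w.re ^ 2 + w.im ^ 2 := by
    rw [Complex.sq_norm, Complex.normSq_apply]; ring
  have h8 := Complex.re_le_norm w
  refine ⟨by linarith, le_of_mul_le_mul_right ?_ h3, ?_⟩
  · nlinarith
  · by_contra h
    nlinarith [sq_nonneg w.im]

noncomputable def G1 (w : ℂ) : ℂ := w * Complex.log w
noncomputable def G2 (w : ℂ) : ℂ := w * Complex.log w ^ 2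
noncomputable def G3 (w : ℂ) : ℂ := w * Complex.log w * Complex.log w ^ (2⁻¹ : ℂ)

lemma G1a {w : ℂ} (hw : 0 < w.re) : AnalyticAt ℂ G1 w :=
  analyticAt_id.mul (analyticAt_clog (Or.inl hw))

lemma G2a {w : ℂ} (hw : 0 < w.re) : AnalyticAt ℂ G2 w :=
  analyticAt_id.mul ((analyticAt_clog (Or.inl hw)).pow 2)

lemma G3a {w : ℂ} (hw : 0 < w.re) (h : 10 ≤ Real.log ‖w‖) : AnalyticAt ℂ G3 w :=
  (G1a hw).mul ((analyticAt_clog (Or.inl hw)).cpow analyticAt_const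
    (Or.inl (by rw [Complex.log_re]; linarith)))

lemma G1re (w : ℂ) : (G1 w).re = w.re * Real.log ‖w‖ - w.im * w.arg := by
  simp [G1, Complex.log_re, Complex.log_im]

lemma G2re (w : ℂ) : (G2 w).re = w.re * (Real.log ‖w‖ ^ 2 - w.arg ^ 2) -
    2 * Real.log ‖w‖ * (w.im * w.arg) := by
  simp [G2, sq, Complex.log_re, Complex.log_im]
  ring

lemma G3f {w : ℂ} (hw : 0 < w.re) (h : 10 ≤ Real.log ‖w‖) : ∃ p : ℝ, 1 ≤ p ∧
    p ^ 2 ≤ 2 * Real.log ‖w‖ ∧ (G3 w).re ≤ w.re * Real.log ‖w‖ * p ∧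
    (w.im = 0 → (G3 w).re = w.re * Real.log ‖w‖ * p) ∧
    (0 < (G3 w).re → 4 * (w.im * w.arg) ≤ 3 * (w.re * Real.log ‖w‖)) := by
  obtain ⟨a1, -, a3⟩ := argf hw
  set s := Complex.log w ^ (2⁻¹ : ℂ) with hs
  have s2 : s ^ 2 = Complex.log w := Complex.cpow_ofNat_inv_pow _ 2
  have p0 : 0 ≤ s.re := by rw [hs, Complex.cpow_inv_two_re]; exact Real.sqrt_nonneg _
  have e1 : s.re ^ 2 - s.im ^ 2 = Real.log ‖w‖ := by
    rw [← Complex.log_re, ← s2]; simp [sq]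
  have e2 : 2 * s.re * s.im = w.arg := by
    rw [← Complex.log_im, ← s2]; simp [sq]; ring
  have e3 : (G3 w).re = w.re * (Real.log ‖w‖ * s.re - w.arg * s.im) -
      w.im * (Real.log ‖w‖ * s.im + w.arg * s.re) := by
    simp only [G3, ← hs, Complex.mul_re, Complex.mul_im, Complex.log_re, Complex.log_im]
    ring
  have z : w.im = 0 → w.arg = 0 := fun h0 => Complex.arg_eq_zero_iff.2 ⟨hw.le, h0⟩
  generalize s.re = p at *
  generalize s.im = q at *
  generalize Real.log ‖w‖ = L at *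
  generalize w.arg = θ at *
  generalize w.re = t at *
  generalize w.im = y at *
  have t4 : θ ^ 2 ≤ 4 := by nlinarith [sq_abs θ, abs_nonneg θ]
  have p1 : 1 ≤ p := by nlinarith [sq_nonneg q]
  have q1 : q ^ 2 ≤ 1 := by
    have : 4 * (p ^ 2 * q ^ 2) ≤ 4 := by rw [← e2] at t4; nlinarith
    nlinarith [sq_nonneg q]
  have c1 : 0 ≤ θ * q := by rw [← e2]; nlinarith [sq_nonneg q]
  have c2 : 0 ≤ y * q := by
    by_contra k
    rw [← e2] at a3
    nlinarith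
  have c3 : (G3 w).re ≤ t * L * p - L * (y * q) - y * θ * p := by rw [e3]; nlinarith
  refine ⟨p, p1, by linarith, by nlinarith, fun h0 => by rw [e3, z h0, h0]; ring, fun h0 => ?_⟩
  have c4 : 0 < (t * L * p - L * (y * q) - y * θ * p) * (2 * p) := by
    apply mul_pos <;> linarith
  have c5 : 0 < 2 * p ^ 2 * (t * L - y * θ) - L * (y * θ) := by
    rw [← e2] at c4 ⊢; nlinarith
  have c6 : 2 * p ^ 2 * (y * θ) ≤ 3 * L * (y * θ) := mul_le_mul_of_nonneg_right (by linarith) a3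
  by_contra k
  have : 0 < p ^ 2 := by positivity
  nlinarith

lemma inD {w : ℂ} (hw : 0 < w.re) (h : 10 ≤ Real.log ‖w‖) (h0 : 0 < (G3 w).re) :
    ‖w‖ ≤ w.re * Real.log ‖w‖ ∧ w.re * Real.log ‖w‖ ≤ 4 * (G1 w).re := by
  obtain ⟨p, -, -, -, -, h1⟩ := G3f hw h
  have h2 := h1 h0
  obtain ⟨-, a2, -⟩ := argf hw
  rw [G1re]
  constructor <;> nlinarith

lemma maj {z : ℂ} {L : ℝ} (hz : 0 < z.re) (hL : 1 ≤ L) (h : Real.log z.re ≤ L) :
    |z.im| ≤ -2 * (G1 z).re + 4 * (z.re * L) := by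
  obtain ⟨-, a2, -⟩ := argf hz
  have h3 : 0 < ‖z‖ := hz.trans_le (Complex.re_le_norm z)
  have h4 := Real.log_le_sub_one_of_pos (show 0 < ‖z‖ / (2 * z.re) by positivity)
  rw [Real.log_div h3.ne' (by positivity), Real.log_mul (by norm_num) hz.ne'] at h4
  have h5 := Real.log_two_lt_d9
  have h6 : z.re * Real.log ‖z‖ ≤ z.re * (L + ‖z‖ / (2 * z.re)) :=
    mul_le_mul_of_nonneg_left (by linarith) hz.le
  have h7 : z.re * (L + ‖z‖ / (2 * z.re)) = z.re * L + ‖z‖ / 2 := by field_simp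
  have h8 := Complex.abs_im_le_norm z
  rw [G1re]
  nlinarith

lemma low {w : ℂ} (hw : 0 < w.re) (h : 10 ≤ Real.log ‖w‖) :
    w.re * Real.log ‖w‖ ^ 2 / 16 ≤ |w.im| * max (Real.log |w.im|) 0 + (G2 w).re / 8 := by
  obtain ⟨a1, -, -⟩ := argf hw
  have t4 : w.arg ^ 2 ≤ 4 := by nlinarith [sq_abs w.arg, abs_nonneg w.arg]
  have b2 : w.im * w.arg ≤ |w.im| * 2 := (le_abs_self _).trans (by
    rw [abs_mul]; exact mul_le_mul_of_nonneg_left a1 (abs_nonneg _))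
  have b3 : Real.log ‖w‖ * (w.im * w.arg) ≤ Real.log ‖w‖ * (|w.im| * 2) :=
    mul_le_mul_of_nonneg_left b2 (by linarith)
  have b4 : w.re * w.arg ^ 2 ≤ w.re * 4 := mul_le_mul_of_nonneg_left t4 hw.le
  rw [G2re]
  rcases le_total |w.im| w.re with k | k
  · have : 0 ≤ |w.im| * max (Real.log |w.im|) 0 := by positivity
    have b5 : Real.log ‖w‖ * |w.im| ≤ Real.log ‖w‖ * w.re :=
      mul_le_mul_of_nonneg_left k (by linarith)
    have b6 : 0 ≤ w.re * (Real.log ‖w‖ ^ 2 - 8 * Real.log ‖w‖ - 8) :=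
      mul_nonneg hw.le (by nlinarith)
    nlinarith
  · have h3 : 0 < ‖w‖ := hw.trans_le (Complex.re_le_norm w)
    have c1 : ‖w‖ ≤ 2 * |w.im| := by
      have := Complex.norm_le_abs_re_add_abs_im w
      rw [abs_of_pos hw] at this
      linarith
    have c2 := Real.log_le_log h3 c1
    rw [Real.log_mul (by norm_num) (hw.trans_le k).ne'] at c2
    have h5 := Real.log_two_lt_d9
    have c3 : |w.im| * (Real.log ‖w‖ / 2) ≤ |w.im| * max (Real.log |w.im|) 0 :=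
      mul_le_mul_of_nonneg_left (le_max_of_le_left (by linarith)) (abs_nonneg _)
    have b6 : 0 ≤ w.re * (Real.log ‖w‖ ^ 2 - 8) := mul_nonneg hw.le (by nlinarith)
    nlinarith

lemma cube {w : ℂ} (hw : 0 < w.re) (h : 10 ≤ Real.log ‖w‖) : (G3 w).re ≤ ‖w‖ ^ 3 := by
  obtain ⟨p, p1, p2, p3, -⟩ := G3f hw h
  have h3 : 0 < ‖w‖ := hw.trans_le (Complex.re_le_norm w)
  have h4 := Real.log_le_sub_one_of_pos h3
  have h5 : p ≤ Real.log ‖w‖ := by nlinarith
  refine p3.trans ((mul_le_mul (mul_le_mul (Complex.re_le_norm w) (show _ ≤ ‖w‖ by linarith)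
    (by linarith) h3.le) (show p ≤ ‖w‖ by linarith) (by linarith) (by positivity)).trans_eq ?_)
  ring

lemma outer {w : ℂ} {K : ℝ} (hK : 0 < K) (hw : 0 < w.re) (h : 10 ≤ Real.log ‖w‖)
    (h1 : w.re * Real.log ‖w‖ ^ 2 / 16 ≤ K * (G3 w).re) : ‖w‖ ≤ Real.exp (512 * K ^ 2) := by
  obtain ⟨p, p1, p2, p3, -⟩ := G3f hw h
  have h3 : 0 < ‖w‖ := hw.trans_le (Complex.re_le_norm w)
  rw [← Real.log_le_iff_le_exp h3]
  generalize Real.log ‖w‖ = L at *
  have h4 : w.re * L * L ≤ w.re * L * (16 * K * p) := by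
    have := mul_le_mul_of_nonneg_left p3 hK.le
    nlinarith
  have h5 : L ≤ 16 * K * p := le_of_mul_le_mul_left h4 (by positivity)
  have h6 : L * L ≤ L * (512 * K ^ 2) := by
    have := mul_self_le_mul_self (by linarith) h5
    have := mul_le_mul_of_nonneg_left p2 (sq_nonneg K)
    nlinarith
  exact le_of_mul_le_mul_left h6 (by linarith)

end Pool.Agent.H.MP_677f70_an
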