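import Mathlib
import Pool.Agent.H.MP_677f70_an.A
import Pool.Agent.H.MP_677f70_an.B

open Set Metric Filter Topology InnerProductSpace

namespace Pool.Agent.H.MP_677f70_an

variable {n : ℕ}

abbrev E (n : ℕ) := EuclideanSpace ℝ (Fin (n + 2))

noncomputable def ℓ (j : Fin (n + 2)) : E n →L[ℝ] ℂ :=
  Complex.ofRealCLM ∘L EuclideanSpace.proj 1 +
    Complex.I • (Complex.ofRealCLM ∘L EuclideanSpace.proj j)

lemma ℓa (j : Fin (n + 2)) (x : E n) : ℓ j x = x 1 + x j * Complex.I := by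
  simp [ℓ, mul_comm]

lemma ℓre (j : Fin (n + 2)) (x : E n) : (ℓ j x).re = x 1 := by simp [ℓa]
lemma ℓim (j : Fin (n + 2)) (x : E n) : (ℓ j x).im = x j := by simp [ℓa]

lemma ℓsq {j : Fin (n + 2)} (hj : j ≠ 1) : ∑ i, ℓ j (EuclideanSpace.single i 1) ^ 2 = 0 := by
  rw [Finset.sum_eq_add 1 j hj.symm]
  · simp [ℓa, hj, hj.symm]
  · intro c _ hc
    simp [ℓa, hc.1.symm, hc.2.symm]
  · simp
  · simp

lemma hsum {ι : Type} (s : Finset ι) {f : ι → E n → ℝ} {x : E n}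
    (h : ∀ i ∈ s, HarmonicAt (f i) x) : HarmonicAt (fun y => ∑ i ∈ s, f i y) x := by
  classical
  induction s using Finset.induction_on with
  | empty => simp
  | insert a s ha ih =>
    simp only [Finset.sum_insert ha]
    exact (h a (Finset.mem_insert_self _ _)).add (ih fun i hi => h i (Finset.mem_insert_of_mem hi))

def Gs (n : ℕ) : Set (E n) :=
  {x | (0 < x 1 ∧ Real.exp 10 < ‖ℓ 0 x‖) ∧ 0 < (G3 (ℓ 0 x)).re}

lemma lg {x : E n} (h : Real.exp 10 < ‖ℓ 0 x‖) : 10 ≤ Real.log ‖ℓ 0 x‖ :=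
  (Real.le_log_iff_exp_le ((Real.exp_pos _).trans h)).2 h.le

lemma h3 {x : E n} (h : 0 < x 1) (h' : Real.exp 10 < ‖ℓ 0 x‖) :
    HarmonicAt (fun y : E n => (G3 (ℓ 0 y)).re) x :=
  harm _ (ℓsq zero_ne_one) (G3a (by rwa [ℓre]) (lg h'))

lemma Gopen : IsOpen (Gs n) := by
  have o : IsOpen {x : E n | 0 < x 1 ∧ Real.exp 10 < ‖ℓ 0 x‖} :=
    IsOpen.and (isOpen_lt continuous_const (by fun_prop)) (isOpen_lt continuous_const (by fun_prop))
  exact ContinuousOn.isOpen_inter_preimage (f := fun y : E n => (G3 (ℓ 0 y)).re)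
    (fun x hx => (h3 hx.1 hx.2).1.continuousAt.continuousWithinAt) o isOpen_Ioi

lemma exmaj : ∃ h : E n → ℝ, HarmonicOnNhd h (Gs n) ∧ ∀ x ∈ Gs n, ‖x‖ ≤ h x := by
  refine ⟨fun y => ∑ j ∈ Finset.univ.erase 1, (-2 * (G1 (ℓ j y)).re + 16 * (G1 (ℓ 0 y)).re) +
    4 * (G1 (ℓ 0 y)).re, fun x hx => ?_, fun x hx => ?_⟩
  · have k : ∀ j ≠ 1, HarmonicAt (fun y : E n => (G1 (ℓ j y)).re) x := fun j hj =>
      harm _ (ℓsq hj) (G1a (by rw [ℓre]; exact hx.1.1))
    exact (hsum _ fun j hj => ((k j (Finset.ne_of_mem_erase hj)).const_smul (c := -2)).add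
      ((k 0 zero_ne_one).const_smul (c := 16))).add ((k 0 zero_ne_one).const_smul (c := 4))
  · have t0 := hx.1.1
    have L0 := lg hx.1.2
    obtain ⟨-, a2⟩ := inD (by rwa [ℓre]) L0 hx.2
    rw [ℓre] at a2
    have n1 : ‖x‖ ≤ ∑ j, |x j| := by
      refine le_of_sq_le_sq ?_ (by positivity) |> fun h => h
      rw [EuclideanSpace.real_norm_sq_eq]
      simpa using Finset.sum_sq_le_sq_sum_of_nonneg (s := Finset.univ) (f := fun j => |x j|)
        fun _ _ => abs_nonneg _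
    rw [← Finset.sum_erase_add _ _ (Finset.mem_univ 1), abs_of_pos t0] at n1
    refine n1.trans (add_le_add (Finset.sum_le_sum fun j _ => ?_) (by nlinarith))
    have := maj (z := ℓ j x) (L := Real.log ‖ℓ 0 x‖) (by rwa [ℓre]) (by linarith)
      (Real.log_le_log (by rwa [ℓre]) (by rw [ℓre, ← ℓre 0]; exact Complex.re_le_norm _))
    rw [ℓre, ℓim] at this
    linarith

noncomputable def bet (c : ℝ) (y : E n) : ℝ := ∑ i, y i ^ 2 - (n + 3) * y 1 ^ 2 + c

lemma betc (c : ℝ) : ContDiff ℝ 2 (bet (n := n) c) := by unfold bet; fun_prop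

lemma lapsum (s : Finset (Fin (n + 2))) (x : E n) :
    Laplacian.laplacian (fun y : E n => ∑ i ∈ s, y i ^ 2) x = 2 * s.card := by
  induction s using Finset.induction_on with
  | empty => simp
  | insert a s ha ih =>
    simp only [Finset.sum_insert ha, Finset.card_insert_of_notMem ha]
    have := ContDiffAt.laplacian_add (f₁ := fun y : E n => y a ^ 2)
      (f₂ := fun y : E n => ∑ i ∈ s, y i ^ 2) (x := x) (by fun_prop) (by fun_prop)
    rw [lapsq, ih] at this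
    push_cast
    exact Eq.trans this (by ring)

lemma betl (c : ℝ) (x : E n) : Laplacian.laplacian (bet c) x = -2 := by
  have h1 := ContDiffAt.laplacian_sub (f₁ := fun y : E n => ∑ i, y i ^ 2)
    (f₂ := (n + 3 : ℝ) • fun y : E n => y 1 ^ 2) (x := x) (by fun_prop) (by fun_prop)
  have h2 := ContDiffAt.laplacian_add
    (f₁ := (fun y : E n => ∑ i, y i ^ 2) - (n + 3 : ℝ) • fun y : E n => y 1 ^ 2)
    (f₂ := fun _ => c) (x := x)
    (ContDiffAt.sub (f := fun y : E n => ∑ i, y i ^ 2) (g := fun y : E n => (n + 3 : ℝ) * y 1 ^ 2)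
      (by fun_prop) (by fun_prop)) (by fun_prop)
  rw [h1, laplacian_smul _ (by fun_prop), lapsq, lapsum] at h2
  refine Eq.trans h2 ?_
  simp
  ring

noncomputable def x0 (n : ℕ) : E n := EuclideanSpace.single 1 ((Real.exp 10 + 1) ^ 3 + 1)

lemma x0p : x0 n ∈ Gs n ∧ (Real.exp 10 + 1) ^ 3 < (G3 (ℓ 0 (x0 n))).re := by
  have e0 := Real.exp_pos 10
  have e1 : x0 n 1 = (Real.exp 10 + 1) ^ 3 + 1 := by simp [x0]
  have e2 : (ℓ 0 (x0 n)).im = 0 := by rw [ℓim]; simp [x0]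
  have t0 : 0 < x0 n 1 := by rw [e1]; positivity
  have e3 : Real.exp 10 < ‖ℓ 0 (x0 n)‖ := by
    refine lt_of_lt_of_le ?_ (Complex.re_le_norm _)
    rw [ℓre, e1]
    nlinarith [mul_pos e0 e0, mul_pos e0 (mul_pos e0 e0)]
  have L0 := lg e3
  obtain ⟨p, p1, -, -, p4, -⟩ := G3f (by rwa [ℓre]) L0
  have e4 : (Real.exp 10 + 1) ^ 3 < (G3 (ℓ 0 (x0 n))).re := by
    rw [p4 e2, ℓre, mul_assoc]
    have : 1 ≤ Real.log ‖ℓ 0 (x0 n)‖ * p := by nlinarith
    nlinarith
  exact ⟨⟨⟨t0, e3⟩, lt_trans (by positivity) e4⟩, e4⟩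

lemma nomaj {h : E n → ℝ} (hh : HarmonicOnNhd h (connectedComponentIn (Gs n) (x0 n)))
    (hu : ∀ x ∈ connectedComponentIn (Gs n) (x0 n), |x 0| * max (Real.log |x 0|) 0 ≤ h x) :
    False := by
  set D := connectedComponentIn (Gs n) (x0 n)
  have DG : D ⊆ Gs n := connectedComponentIn_subset _ _
  have Do : IsOpen D := Gopen.connectedComponentIn
  have xD : x0 n ∈ D := mem_connectedComponentIn x0p.1
  have cl : closure D ∩ Gs n ⊆ D := fun z hz =>
    ((isPreconnected_connectedComponentIn.subset_closure (subset_insert z D)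
      (insert_subset hz.1 subset_closure)).subset_connectedComponentIn
      (mem_insert_of_mem _ xD) (insert_subset hz.2 DG)) (mem_insert _ _)
  have e0 := Real.exp_pos 10
  set m := (Real.exp 10 + 1) ^ 3 with hm
  let M : E n → ℝ := fun y => (G3 (ℓ 0 y)).re
  let g : E n → ℝ := fun y => (G2 (ℓ 0 y)).re
  have lo : ∀ x ∈ D, x 1 * Real.log ‖ℓ 0 x‖ ^ 2 / 16 ≤ h x + g x / 8 := fun x hx => by
    have := low (w := ℓ 0 x) (by rw [ℓre]; exact (DG hx).1.1) (lg (DG hx).1.2)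
    rw [ℓre, ℓim] at this
    linarith [hu x hx]
  have lo' : ∀ x ∈ D, 0 ≤ x 1 * Real.log ‖ℓ 0 x‖ ^ 2 / 16 := fun x hx => by
    have := (DG hx).1.1
    positivity
  have M0 : 0 < M (x0 n) - m := sub_pos.2 x0p.2
  set K := (h (x0 n) + g (x0 n) / 8 + 2) / (M (x0 n) - m) with hK
  have K0 : 0 < K := div_pos (by linarith [lo _ xD, lo' _ xD]) M0
  have K1 : K * (M (x0 n) - m) = h (x0 n) + g (x0 n) / 8 + 2 := by rw [hK]; field_simp
  set R := Real.exp (512 * K ^ 2)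
  have R0 : 0 < R := Real.exp_pos _
  set c := (n + 3 : ℝ) * (R + 1) ^ 2
  have bl : ∀ x : E n, 0 < x 1 → ‖ℓ 0 x‖ < R + 1 → ‖x‖ ^ 2 ≤ bet c x := fun x h1 h2 => by
    have a := Complex.re_le_norm (ℓ 0 x)
    rw [ℓre] at a
    have : (n + 3 : ℝ) * x 1 ^ 2 ≤ c := mul_le_mul_of_nonneg_left (by nlinarith) (by positivity)
    rw [EuclideanSpace.real_norm_sq_eq, bet]
    linarith
  have m0 : 0 < m := by positivity
  have inR : ∀ x ∈ D, h x + g x / 8 ≤ K * (M x - m) → ‖ℓ 0 x‖ ≤ R := fun x hx h1 =>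
    outer K0 (by rw [ℓre]; exact (DG hx).1.1) (lg (DG hx).1.2) (by
      rw [ℓre]; nlinarith [lo x hx, mul_pos K0 m0])
  have xR := inR _ xD (by linarith)
  have b0 : 0 ≤ bet c (x0 n) := (sq_nonneg _).trans (bl _ (DG xD).1.1 (by linarith))
  set ε := 1 / (bet c (x0 n) + 1) with hε
  have ε0 : 0 < ε := by positivity
  have ε1 : ε * bet c (x0 n) ≤ 1 := by
    rw [hε, one_div, inv_mul_le_iff₀ (by positivity)]; linarith
  let P : E n → ℝ := K • M - h - (8⁻¹ : ℝ) • g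
  let F : E n → ℝ := P - ε • bet c
  have Fe : ∀ x, F x = K * M x - h x - g x / 8 - ε * bet c x := fun x => by
    simp only [F, P, Pi.sub_apply, Pi.smul_apply, smul_eq_mul]; ring
  have Ph : ∀ x ∈ D, HarmonicAt P x := fun x hx =>
    (((h3 (DG hx).1.1 (DG hx).1.2).const_smul (c := K)).sub (hh x hx)).sub
      ((harm _ (ℓsq zero_ne_one) (G2a (by rw [ℓre]; exact (DG hx).1.1))).const_smul (c := 8⁻¹))
  have bc : ∀ x, ContDiffAt ℝ 2 (ε • bet (n := n) c) x := fun x =>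
    (betc c).contDiffAt.const_smul ε
  have Fc : ∀ x ∈ D, ContDiffAt ℝ 2 F x := fun x hx => (Ph x hx).1.sub (bc x)
  let Z : Set (E n) := {x | 1 ≤ x 1 ∧ Real.exp 10 + 1 ≤ ‖ℓ 0 x‖ ∧ ‖ℓ 0 x‖ ≤ R ∧
    ‖x‖ ≤ K * R ^ 3 / ε + 1}
  have Zc : IsClosed Z := IsClosed.and (isClosed_le continuous_const (by fun_prop))
    (IsClosed.and (isClosed_le continuous_const (by fun_prop))
      (IsClosed.and (isClosed_le (by fun_prop) continuous_const)
        (isClosed_le (by fun_prop) continuous_const)))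
  let C := closure D ∩ (Z ∩ M ⁻¹' Ici m)
  have Cc : IsCompact C := isCompact_of_isClosed_isBounded (isClosed_closure.inter
    (ContinuousOn.preimage_isClosed_of_isClosed (fun x hx => (h3 (by linarith [hx.1])
      (by linarith [hx.2.1])).1.continuousAt.continuousWithinAt) Zc isClosed_Ici))
    (isBounded_iff_forall_norm_le.2 ⟨_, fun x hx => hx.2.1.2.2.2⟩)
  have CD : C ⊆ D := fun x hx => cl ⟨hx.1, ⟨by linarith [hx.2.1.1], by linarith [hx.2.1.2.1]⟩,
    m0.trans_le hx.2.2⟩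
  have key : ∀ x ∈ D, ‖ℓ 0 x‖ < R + 1 → F (x0 n) ≤ F x → x ∈ C := fun x hx h1 h2 => by
    have t0 := (DG hx).1.1
    have L0 := lg (DG hx).1.2
    have a1 := bl x t0 h1
    have a2 := mul_le_mul_of_nonneg_left a1 ε0.le
    have a3 : 0 ≤ ε * ‖x‖ ^ 2 := by positivity
    rw [Fe, Fe] at h2
    have a4 : h x + g x / 8 + ε * ‖x‖ ^ 2 ≤ K * (M x - m) := by linarith
    have a5 := inR x hx (by linarith)
    have a6 : m ≤ M x := by
      have : 0 ≤ K * (M x - m) := by linarith [lo x hx, lo' x hx]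
      linarith [nonneg_of_mul_nonneg_right this K0 |> fun h => h]
    have a7 : M x ≤ ‖ℓ 0 x‖ ^ 3 := cube (by rwa [ℓre]) L0
    have a8 := (inD (by rwa [ℓre]) L0 (DG hx).2).1
    have a9 := Real.log_le_sub_one_of_pos (e0.trans (DG hx).1.2)
    rw [ℓre] at a8
    refine ⟨subset_closure hx, ⟨by nlinarith, le_of_pow_le_pow_left₀ three_ne_zero (norm_nonneg _)
      (a6.trans a7), a5, ?_⟩, a6⟩
    have b1 : ‖ℓ 0 x‖ ^ 3 ≤ R ^ 3 := by gcongr
    have b2 : ‖x‖ ^ 2 ≤ K * R ^ 3 / ε := by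
      rw [le_div_iff₀ ε0]
      have := mul_le_mul_of_nonneg_left (a7.trans b1) K0.le
      nlinarith [lo x hx, lo' x hx, mul_pos K0 m0]
    nlinarith [sq_nonneg (‖x‖ - 1)]
  have xC := key _ xD (by linarith) le_rfl
  obtain ⟨z, zC, hz⟩ := Cc.exists_isMaxOn ⟨_, xC⟩
    fun x hx => (Fc x (CD hx)).continuousAt.continuousWithinAt
  have zD := CD zC
  have lm : IsLocalMax F z := by
    filter_upwards [Do.mem_nhds zD, (isOpen_lt (f := fun y : E n => ‖ℓ 0 y‖) (g := fun _ => R + 1)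
      (by fun_prop) continuous_const).mem_nhds (by
        show ‖ℓ 0 z‖ < R + 1
        linarith [zC.2.1.2.2.1])] with x hx h1
    rcases le_total (F (x0 n)) (F x) with k | k
    · exact hz (key x hx h1 k)
    · exact k.trans (hz xC)
  have f1 := locmax (Fc z zD) lm
  rw [(Ph z zD).1.laplacian_sub (bc z), (Ph z zD).2.self_of_nhds,
    laplacian_smul _ (betc c).contDiffAt, betl] at f1
  simp at f1
  linarith

end Pool.Agent.H.MP_677f70_an
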